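import Mathlib
import Pool.Agent.H7.OddInd

set_option autoImplicit false

namespace Pool.Agent.Results.MP_5d7181_co.Limit

open Pool.Agent.H7.OddInd Filter Topology

/-- `α_od(Q_d) / 2^d → 1/2` along even `d`. -/
theorem result :
    Tendsto (fun k : ℕ => (alphaOd (Q (2 * k)) : ℝ) / 2 ^ (2 * k)) atTop (𝓝 (1 / 2)) := by
  rw [Metric.tendsto_atTop]
  intro ε hε
  obtain ⟨m, hm⟩ := exists_pow_lt_of_lt_one hε (show (1 / 2 : ℝ) < 1 by norm_num)
  refine ⟨2 ^ (m + 1), fun k hk => ?_⟩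
  have hp : 0 < 2 ^ (m + 1) := by positivity
  have h1 := lower (m + 1) (2 * k) (by omega) (even_two_mul k) (by omega)
  have h2 := alpha_le (d := 2 * k) (by omega)
  have h3 : ((2 : ℝ) ^ (m + 1) - 1) * 2 ^ (2 * k) ≤ 2 * 2 ^ (m + 1) * alphaOd (Q (2 * k)) := by
    have : (((2 ^ (m + 1) - 1 : ℕ) : ℝ)) = 2 ^ (m + 1) - 1 := by
      rw [Nat.cast_sub hp]; simp
    rw [← this]
    exact_mod_cast h1
  have h4 : (2 : ℝ) * alphaOd (Q (2 * k)) ≤ 2 ^ (2 * k) := by exact_mod_cast h2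
  have p1 : (0 : ℝ) < 2 ^ (2 * k) := by positivity
  have p2 : (0 : ℝ) < 2 ^ m := by positivity
  rw [one_div_pow, div_lt_iff₀ p2] at hm
  rw [Real.dist_eq, abs_lt, pow_succ] at *
  constructor
  · rw [lt_sub_iff_add_lt, lt_div_iff₀ p1]
    have : 1 * 2 ^ (2 * k) < ε * 2 ^ m * 2 ^ (2 * k) := by gcongr
    nlinarith
  · rw [sub_lt_iff_lt_add, div_lt_iff₀ p1]
    nlinarith

end Pool.Agent.Results.MP_5d7181_co.Limit
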