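import Mathlib
import Pool.Agent.H7.OddInd

set_option autoImplicit false

namespace Pool.Agent.Results.MP_5d7181_co.Lower

open Pool.Agent.H7.OddInd

/-- `α_od(Q_d) ≥ (1 - 2^{-m}) 2^{d-1}` for even `d ≥ 2^m`. -/
theorem result : ∀ m d : ℕ, 1 ≤ m → Even d → 2 ^ m ≤ d →
    (1 - 1 / 2 ^ m : ℝ) * (2 ^ d / 2) ≤ alphaOd (Q d) := by
  intro m d hm hd h2
  have h1 := lower m d hm hd h2
  have hp : 0 < 2 ^ m := by positivity
  have h3 : ((2 : ℝ) ^ m - 1) * 2 ^ d ≤ 2 * 2 ^ m * alphaOd (Q d) := by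
    have : (((2 ^ m - 1 : ℕ) : ℝ)) = 2 ^ m - 1 := by
      rw [Nat.cast_sub hp]; simp
    rw [← this]
    exact_mod_cast h1
  have p2 : (0 : ℝ) < 2 ^ m := by positivity
  have : (1 - 1 / 2 ^ m : ℝ) * (2 ^ d / 2) = (2 ^ m - 1) * 2 ^ d / (2 * 2 ^ m) := by
    field_simp
  rw [this, div_le_iff₀ (by positivity)]
  linarith

end Pool.Agent.Results.MP_5d7181_co.Lower
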